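import Mathlib
import Pool.Agent.X45.HY.Game
import Pool.Agent.X45.HY.Join9

/-! MP_bed60c_co, Q1 (disproved): the hyperopic cop number of a join can exceed `Υ` of the join. -/

namespace Pool.Agent.Results.MP_bed60c_co.JoinExceedsUpsilon

open Pool.Agent.X45.HY

/-- There are connected graphs `G` and `J` with `c_H(G ∨ J) ≥ Υ(G ∨ J) + 1`. -/
theorem result : ∃ (G : SimpleGraph (Fin 9)) (J : SimpleGraph (Fin 1)),
    G.Connected ∧ J.Connected ∧ Ups (join G J) + 1 ≤ cH (join G J) :=
  ⟨G9, ⊥, G9_conn, J1_conn, main9⟩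

end Pool.Agent.Results.MP_bed60c_co.JoinExceedsUpsilon
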